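import Mathlib
import Pool.Agent.H27.CSAlg

namespace Pool.Agent.Results.MP_eafd9d_co.Separation

open Matrix Finset

/-- The completely positive semidefinite cone. -/
def CSplus {ι : Type} (M : Matrix ι ι ℝ) : Prop :=
  ∃ d : ℕ, 1 ≤ d ∧ ∃ ρ : ι → Matrix (Fin d) (Fin d) ℝ,
    (∀ i, (ρ i).PosSemidef) ∧ ∀ i j, M i j = (ρ i * ρ j).trace

variable {A B : Type} [Fintype B]

def C1 (H : Matrix (A × B) (A × B) ℝ) : Prop := ∀ x x', ∑ y, ∑ y', H (x, y) (x', y') = 1

def C2 (X : SimpleGraph A) (Y : SimpleGraph B) (H : Matrix (A × B) (A × B) ℝ) : Prop :=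
  ∀ x x' y y', X.Adj x x' → ¬ Y.Adj y y' → H (x, y) (x', y') = 0

def C3 (H : Matrix (A × B) (A × B) ℝ) : Prop := ∀ x y y', y ≠ y' → H (x, y) (x, y') = 0

def WeakHom (X : SimpleGraph A) (Y : SimpleGraph B) : Prop :=
  ∃ H, CSplus H ∧ C1 H ∧ C2 X Y H

def StrongHom (X : SimpleGraph A) (Y : SimpleGraph B) : Prop :=
  ∃ H, CSplus H ∧ C1 H ∧ C2 X Y H ∧ C3 H

def vec : Fin 7 → Fin 5 → Fin 4 → ℤ :=
  ![![![1, 0, 0, 0], ![0, 1, 0, 0], ![0, 0, 1, 0], ![0, 0, 0, 1], 0],
    ![![1, 1, 1, 1], ![1, 1, -1, -1], ![1, -1, 1, -1], ![1, -1, -1, 1], 0],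
    ![![1, 1, 0, 0], ![1, -1, 0, 0], ![0, 0, 1, 1], ![0, 0, 1, -1], 0],
    ![![1, 0, 1, 0], ![1, 0, -1, 0], ![0, 1, 0, 1], ![0, 1, 0, -1], 0],
    ![![1, 0, 0, 1], ![1, 0, 0, -1], ![0, 1, 1, 0], ![0, 1, -1, 0], 0],
    ![![1, 1, 1, -1], ![1, 1, -1, 1], ![1, -1, 1, 1], ![1, -1, -1, -1], 0],
    ![![1, 1, 1, 0], ![1, 1, -1, 0], ![1, -1, 1, 0], ![1, -1, -1, 0], ![0, 0, 0, 1]]]

abbrev W := Fin 7 × Fin 5

def YG : SimpleGraph W where
  Adj y y' := y.1 ≠ y'.1 ∧ vec y.1 y.2 ⬝ᵥ vec y'.1 y'.2 ≠ 0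
  symm := ⟨fun _ _ h => ⟨h.1.symm, by rw [dotProduct_comm]; exact h.2⟩⟩
  loopless := ⟨fun _ h => h.1 rfl⟩

instance : DecidableRel YG.Adj := fun _ _ => instDecidableAnd

def wt (c : Fin 7) (a : Fin 5) : ℤ := if c = 6 then (if a = 4 then 4 else 1) else ![4, 1, 2, 2, 2, 1, 0] c

def zm (y : W) : Matrix (Fin 4) (Fin 4) ℤ := wt y.1 y.2 • vecMulVec (vec y.1 y.2) (vec y.1 y.2)

noncomputable def rm (p : Fin 7 × W) : Matrix (Fin 4) (Fin 4) ℝ :=
  if p.1 = p.2.1 then (1 / 8 : ℝ) • (Int.castRingHom ℝ).mapMatrix (zm p.2) else 0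

lemma weak : WeakHom (⊤ : SimpleGraph (Fin 7)) YG := by
  refine ⟨fun p q => (rm p * rm q).trace, ⟨4, by norm_num, rm, fun p => ?_, fun _ _ => rfl⟩,
    fun x x' => ?_, fun x x' y y' h h' => ?_⟩
  · unfold rm
    split_ifs
    · have e : (Int.castRingHom ℝ).mapMatrix (zm p.2) = (wt p.2.1 p.2.2 : ℝ) •
          vecMulVec (fun i => (vec p.2.1 p.2.2 i : ℝ)) (star fun i => (vec p.2.1 p.2.2 i : ℝ)) := by
        ext i j; simp [zm, vecMulVec_apply, -zsmul_eq_mul]
      have w : ∀ c a, 0 ≤ wt c a := by decide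
      rw [e]
      exact ((posSemidef_vecMulVec_self_star _).smul (by exact_mod_cast w _ _)).smul (by norm_num)
    · exact PosSemidef.zero
  · have s : ∀ x, ∑ y, rm (x, y) = (1 / 2 : ℝ) • (1 : Matrix (Fin 4) (Fin 4) ℝ) := by
      intro x
      have z : ∀ c : Fin 7, ∑ a, zm (c, a) = 4 := by decide +kernel
      rw [Fintype.sum_prod_type, sum_eq_single x (fun c _ hc => by simp [rm, Ne.symm hc]) (by simp)]
      simp only [rm, if_true, ← smul_sum, ← map_sum, z, map_ofNat]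
      ext i j
      by_cases h : i = j <;> simp [h, ofNat_apply]
      norm_num
    simp only [← trace_sum, ← mul_sum, ← sum_mul, s]
    simp
    norm_num
  · have z : ∀ y y' : W, y.1 ≠ y'.1 → ¬ YG.Adj y y' → zm y * zm y' = 0 := by decide +kernel
    simp only [rm]
    split_ifs with h1 h2
    · rw [smul_mul_smul_comm, ← map_mul, z y y' (by rw [← h1, ← h2]; exact h.ne) h']; simp
    all_goals simp

open scoped MatrixOrder in
lemma mul_zero_of_trace {d : ℕ} {M N : Matrix (Fin d) (Fin d) ℝ} (hM : M.PosSemidef)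
    (hN : N.PosSemidef) (h : (M * N).trace = 0) : M * N = 0 := by
  obtain ⟨a, rfl⟩ := CStarAlgebra.nonneg_iff_eq_star_mul_self.mp hM.nonneg
  obtain ⟨b, rfl⟩ := CStarAlgebra.nonneg_iff_eq_star_mul_self.mp hN.nonneg
  have e : a * star b = 0 := by
    rw [← trace_conjTranspose_mul_self_eq_zero_iff, ← h, ← star_eq_conjTranspose, star_mul,
      star_star, mul_assoc, trace_mul_comm]
    simp only [mul_assoc]
  rw [mul_assoc, ← mul_assoc a, e]; simp

def ok (c : Fin 7) (a : Fin 5) (c' : Fin 7) (a' : Fin 5) : Bool :=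
  decide ((c, a) ≠ (c', a') ∧ ¬ YG.Adj (c, a) (c', a'))

lemma not_strong : ¬ StrongHom (⊤ : SimpleGraph (Fin 7)) YG := by
  rintro ⟨H, ⟨d, -, ρ, hρ, hH⟩, h1, h2, h3⟩
  have F : ∀ i j y y', (i, y) ≠ (j, y') → ¬ YG.Adj y y' → ρ (i, y) * ρ (j, y') = 0 := by
    intro i j y y' hne ha
    refine mul_zero_of_trace (hρ _) (hρ _) ?_
    rw [← hH]
    by_cases hij : i = j
    · subst hij; exact h3 _ _ _ fun e => hne (by rw [e])
    · exact h2 _ _ _ _ hij ha
  set σ : W → Matrix (Fin d) (Fin d) ℝ := fun y => ∑ i, ρ (i, y) with hσ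
  set τ : Fin 7 → Matrix (Fin d) (Fin d) ℝ := fun c => ∑ a, σ (c, a) with hτ
  set S := ∑ c, τ c with hS
  have G : ∀ y y', y ≠ y' → ¬ YG.Adj y y' → σ y * σ y' = 0 := fun y y' h ha => by
    simp only [hσ, sum_mul, mul_sum]
    exact sum_eq_zero fun j _ => sum_eq_zero fun i _ => F _ _ _ _ (by simp [h]) ha
  have G1 : ∀ c a, σ (c, a) * τ c = σ (c, a) * σ (c, a) := fun c a => by
    simp only [hτ, mul_sum]
    exact sum_eq_single a (fun b _ hb => G _ _ (by simp [Ne.symm hb]) fun h => h.1 rfl) (by simp)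
  have G2 : ∀ c a, τ c * σ (c, a) = σ (c, a) * σ (c, a) := fun c a => by
    simp only [hτ, sum_mul]
    exact sum_eq_single a (fun b _ hb => G _ _ (by simp [hb]) fun h => h.1 rfl) (by simp)
  have a1 : ∀ y, (σ y * σ y).trace = ∑ i, H (i, y) (i, y) := fun y => by
    simp only [hσ, sum_mul, mul_sum, trace_sum, hH]
    refine sum_congr rfl fun j _ => sum_eq_single j (fun i _ hi => ?_) (by simp)
    rw [F _ _ _ _ (by simp [hi]) fun h => h.1 rfl, trace_zero]
  have a2 : ∑ c, (τ c * τ c).trace = 7 := by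
    have : ∀ c, (τ c * τ c).trace = ∑ a, ∑ i, H (i, (c, a)) (i, (c, a)) := fun c => by
      rw [show τ c * τ c = (∑ a, σ (c, a)) * τ c from rfl, sum_mul, trace_sum]
      exact sum_congr rfl fun a _ => by rw [G1, a1]
    simp only [this]
    rw [← Fintype.sum_prod_type (f := fun y : W => ∑ i, H (i, y) (i, y)), sum_comm]
    have : ∀ i, ∑ y, H (i, y) (i, y) = 1 := fun i => by
      rw [← h1 i i]
      exact sum_congr rfl fun y _ => (sum_eq_single y (fun y' _ h => h3 _ _ _ h.symm) (by simp)).symm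
    simp [this]
  have a3 : (S * S).trace = 49 := by
    have : S = ∑ i, ∑ y, ρ (i, y) := by
      rw [sum_comm, Fintype.sum_prod_type]
    rw [this, sum_mul_sum, trace_sum]
    have : ∀ i j, ((∑ y, ρ (i, y)) * ∑ y, ρ (j, y)).trace = 1 := fun i j => by
      rw [← h1 i j, sum_mul_sum, trace_sum]
      simp only [trace_sum, hH]
    simp [trace_sum, this]
    norm_num
  have hm : ∀ c, (τ c).IsHermitian := fun c =>
    (posSemidef_sum _ fun a _ => posSemidef_sum _ fun i _ => hρ _).1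
  have hSm : S.IsHermitian :=
    (posSemidef_sum _ fun c _ => posSemidef_sum _ fun a _ => posSemidef_sum _ fun i _ => hρ _).1
  have a4 : ∀ c, (7 : ℝ) • τ c = S := by
    have e : ∀ c, ((7 : ℝ) • τ c - S)ᴴ = (7 : ℝ) • τ c - S := fun c => by
      rw [conjTranspose_sub, conjTranspose_smul, (hm c).eq, hSm.eq]; simp
    have t : ∑ c, (((7 : ℝ) • τ c - S)ᴴ * ((7 : ℝ) • τ c - S)).trace = 0 := by
      simp only [e, sub_mul, mul_sub, smul_mul_assoc, mul_smul_comm, trace_sub, trace_smul,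
        sum_sub_distrib, smul_eq_mul, ← mul_sum, a2]
      have b1 : ∑ c, (τ c * S).trace = 49 := by rw [← trace_sum, ← sum_mul, ← hS, a3]
      have b2 : ∑ c, (S * τ c).trace = 49 := by rw [← trace_sum, ← mul_sum, ← hS, a3]
      rw [b1, b2, a3]
      norm_num
    intro c
    have := (sum_eq_zero_iff_of_nonneg fun c _ =>
      (posSemidef_conjTranspose_mul_self _).trace_nonneg).mp t c (mem_univ _)
    exact sub_eq_zero.mp (trace_conjTranspose_mul_self_eq_zero_iff.mp this)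
  obtain ⟨v, t, ht, hv, hSv⟩ := hSm.exists_eigenvector_of_ne_zero (by
    intro h; rw [h] at a3; simp at a3)
  let V : Submodule ℝ (Fin d → ℝ) := Module.End.eigenspace (toLin' S) t
  have mem : ∀ w, w ∈ V ↔ S *ᵥ w = t • w := fun w => by
    simp [V]
  have inv : ∀ y : W, ∀ w ∈ V, toLin' (σ y) w ∈ V := fun y w hw => by
    have : S * σ y = σ y * S := by
      rw [← a4 y.1, smul_mul_assoc, mul_smul_comm, G1 y.1 y.2, G2 y.1 y.2]
    rw [mem] at hw ⊢
    rw [toLin'_apply, mulVec_mulVec, this, ← mulVec_mulVec, hw, mulVec_smul]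
  have key := H27.CS.main (R := Module.End ℝ V) (fun x hx => by
      rw [← two_smul ℝ] at hx; simpa using hx) ok
    (fun c a => (7 / t) • (toLin' (σ (c, a))).restrict (inv (c, a)))
    (fun c a c' a' h => by
      have h' := of_decide_eq_true h
      ext w i
      simp [LinearMap.restrict_apply, G _ _ h'.1 h'.2])
    (fun c => by
      ext w i
      have e : (7 : ℝ) • (τ c *ᵥ w.1) = t • w.1 := by rw [← smul_mulVec, a4, (mem _).mp w.2]
      have e2 := congrFun e i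
      simp only [hτ, Fin.sum_univ_five, add_mulVec, Pi.smul_apply, Pi.add_apply, smul_eq_mul] at e2
      simp [LinearMap.restrict_apply]
      field_simp
      linarith)
    (by decide +kernel) (by decide +kernel) (by decide +kernel) (by decide +kernel)
  have := congrArg (fun f : Module.End ℝ V => (f ⟨v, (mem v).mpr hSv⟩).1) key
  exact hv (by simpa using this)

theorem result : ∃ (X : SimpleGraph (Fin 7)) (Y : SimpleGraph (Fin 7 × Fin 5)),
    WeakHom X Y ∧ ¬ StrongHom X Y :=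
  ⟨⊤, YG, weak, not_strong⟩

end Pool.Agent.Results.MP_eafd9d_co.Separation
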